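import Pool.Agent.W747.MB.Defs

set_option autoImplicit false
open Metric MeasureTheory Set

namespace Pool.Agent.W135.MB.Vit

theorem main : Pool.Agent.W747.MB.P_VIT := by
  intro P U B r R₁ F hF h
  obtain ⟨u, huP, hdisj, hcov⟩ := Vitali.exists_disjoint_subfamily_covering_enlargement_closedBall
    P (fun x : ℂ => x) r R₁ (fun a ha => (h a ha).2.1) 5 (by norm_num)
  have hcount : u.Countable := by
    apply hdisj.countable_of_nonempty_interior
    intro x hx
    refine ⟨x, ?_⟩
    rw [interior_closedBall x (h x (huP hx)).1.ne']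
    exact mem_ball_self (h x (huP hx)).1
  have hsub : B ∩ P ⊆ ⋃ b ∈ u, B ∩ closedBall b (5 * r b) := by
    rintro x ⟨hxB, hxP⟩
    obtain ⟨b, hb, hxb⟩ := hcov x hxP
    rw [mem_iUnion₂]
    exact ⟨b, hb, hxB, hxb (mem_closedBall_self (h x hxP).1.le)⟩
  calc volume (B ∩ P) ≤ volume (⋃ b ∈ u, B ∩ closedBall b (5 * r b)) := measure_mono hsub
    _ ≤ ∑' b : u, volume (B ∩ closedBall (b : ℂ) (5 * r b)) := measure_biUnion_le _ hcount _
    _ ≤ ∑' b : u, ENNReal.ofReal F * volume (closedBall (b : ℂ) (r b)) :=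
        ENNReal.tsum_le_tsum fun b => (h b (huP b.2)).2.2.2
    _ = ENNReal.ofReal F * ∑' b : u, volume (closedBall (b : ℂ) (r b)) := ENNReal.tsum_mul_left
    _ = ENNReal.ofReal F * volume (⋃ b ∈ u, closedBall (b : ℂ) (r b)) := by
        rw [measure_biUnion hcount hdisj (fun b _ => measurableSet_closedBall)]
    _ ≤ ENNReal.ofReal F * volume U := by
        gcongr
        exact iUnion₂_subset fun b hb => (h b (huP hb)).2.2.1

end Pool.Agent.W135.MB.Vit
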